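import Pool.Agent.W2helper19.CP.Rk

/-!
# Project CP (MP_28b04d_gt), piece CON (helper19): `CP²` is compact and connected
-/

set_option autoImplicit false

open Set Filter Topology MeasureTheory
open scoped ContDiff

noncomputable section

namespace Pool.Agent.W2helper44.CP

namespace H19

lemma norm_iff (v : EuclideanSpace ℂ (Fin 3)) :
    ‖v‖ = 1 ↔ ∑ i, v i * star (v i) = 1 := by
  have h1 : ((‖v‖ ^ 2 : ℝ) : ℂ) = ∑ i, v i * star (v i) := by
    rw [EuclideanSpace.norm_sq_eq]
    push_cast
    refine Finset.sum_congr rfl fun i _ => ?_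
    have := Complex.mul_conj' (v i)
    simpa using this.symm
  constructor
  · intro h
    rw [← h1, h]
    norm_num
  · intro h
    rw [← h1] at h
    have h2 : ‖v‖ ^ 2 = 1 := by exact_mod_cast h
    have h3 : 0 ≤ ‖v‖ := norm_nonneg v
    nlinarith

lemma CP2_eq : CP2 = (fun v : EuclideanSpace ℂ (Fin 3) => prj (fun i => v i)) ''
    Metric.sphere (0 : EuclideanSpace ℂ (Fin 3)) 1 := by
  ext P
  constructor
  · intro hP
    obtain ⟨v, hv, rfl⟩ := exists_prj P hP
    refine ⟨(WithLp.toLp 2 v : EuclideanSpace ℂ (Fin 3)), ?_, rfl⟩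
    rw [mem_sphere_zero_iff_norm, norm_iff]
    exact hv
  · rintro ⟨v, hv, rfl⟩
    rw [mem_sphere_zero_iff_norm, norm_iff] at hv
    exact prj_mem _ hv

lemma prj_cont : Continuous (fun v : EuclideanSpace ℂ (Fin 3) => prj (fun i => v i)) := by
  refine continuous_pi fun i => continuous_pi fun j => ?_
  simp only [prj]
  fun_prop

lemma rank_gt : 1 < Module.rank ℝ (EuclideanSpace ℂ (Fin 3)) := by
  rw [rank_real_of_complex, ← Module.finrank_eq_rank ℂ, finrank_euclideanSpace_fin]
  norm_num

end H19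

open H19

theorem p_CON : P_CON := by
  refine ⟨?_, ?_, ?_⟩
  · rw [CP2_eq]
    exact (isCompact_sphere _ _).image prj_cont
  · rw [CP2_eq]
    exact (isPreconnected_sphere rank_gt _ _).image _ prj_cont.continuousOn
  · refine ⟨prj (fun i => if i = 0 then 1 else 0), prj_mem _ ?_⟩
    simp

end Pool.Agent.W2helper44.CP
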