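import Pool.Agent.W2helper44.CP.Stm

/-!
# Project CP (MP_28b04d_gt), pieces KER and CON (helper19)
-/

set_option autoImplicit false

open Set Filter Topology MeasureTheory
open scoped ContDiff

noncomputable section

namespace Pool.Agent.W2helper44.CP

theorem p_KER : P_KER := by
  intro ι _
  let f : ContDiffBump (0 : Eu ι) := ⟨1 / 2, 1, by norm_num, by norm_num⟩
  refine ⟨f.normed volume, ⟨f.contDiff_normed, fun v => f.nonneg_normed v, ?_, f.integral_normed⟩⟩
  intro v hv
  have h : v ∉ Function.support (f.normed volume) := by
    rw [f.support_normed_eq]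
    simp only [Metric.mem_ball, dist_zero_right, not_lt]
    exact hv
  simpa using h

end Pool.Agent.W2helper44.CP
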