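import Pool.Agent.W2helper44.CP.Stm

/-!
# Project CP (MP_28b04d_gt), helper19: points of `CP²` are the matrices `v v*`, `‖v‖ = 1`
-/

set_option autoImplicit false

open Set Filter Topology MeasureTheory
open scoped ContDiff

noncomputable section

namespace Pool.Agent.W2helper44.CP

namespace H19

/-- the projection to the line of a unit vector -/
def prj (v : Fin 3 → ℂ) : Mat3 := fun i j => v i * star (v j)

lemma prj_mem (v : Fin 3 → ℂ) (hv : ∑ i, v i * star (v i) = 1) : prj v ∈ CP2 := by
  refine ⟨fun i j => ?_, fun i j => ?_, hv⟩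
  · simp [prj, mul_comm]
  · have : ∀ k, prj v i k * prj v k j = (v i * star (v j)) * (v k * star (v k)) := by
      intro k; simp only [prj]; ring
    rw [Finset.sum_congr rfl fun k _ => this k, ← Finset.mul_sum, hv, mul_one]
    rfl

/-- the sum of the squares of the absolute values of the entries of a Hermitian matrix -/
lemma sum_sq_of_herm (A : Mat3) (h : ∀ i j, A j i = star (A i j)) :
    ((∑ i, ∑ j, ‖A i j‖ ^ 2 : ℝ) : ℂ) = ∑ i, ∑ j, A i j * A j i := by
  push_cast
  refine Finset.sum_congr rfl fun i _ => Finset.sum_congr rfl fun j _ => ?_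
  rw [h i j]
  have := Complex.mul_conj' (A i j)
  simpa using this.symm

/-- every point of `CP²` has the form `v v*` -/
lemma exists_prj (P : Mat3) (hP : P ∈ CP2) :
    ∃ v : Fin 3 → ℂ, (∑ i, v i * star (v i) = 1) ∧ P = prj v := by
  obtain ⟨h1, h2, h3⟩ := hP
  -- a diagonal entry which is not zero
  obtain ⟨k, hk⟩ : ∃ k, P k k ≠ 0 := by
    by_contra hcon
    push Not at hcon
    rw [Finset.sum_congr rfl fun k _ => hcon k] at h3
    simp at h3
  have hkk : ((∑ i, ‖P i k‖ ^ 2 : ℝ) : ℂ) = P k k := by
    rw [← h2 k k]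
    push_cast
    refine Finset.sum_congr rfl fun i _ => ?_
    rw [h1 i k]
    have := Complex.conj_mul' (P i k)
    simpa using this.symm
  set s : ℝ := ∑ i, ‖P i k‖ ^ 2 with hs
  have hs0 : 0 ≤ s := Finset.sum_nonneg fun i _ => by positivity
  have hsne : s ≠ 0 := by
    intro h
    apply hk
    rw [← hkk, h]
    simp
  have hspos : 0 < s := lt_of_le_of_ne hs0 (Ne.symm hsne)
  have hsq : ((√s : ℝ) : ℂ) * ((√s : ℝ) : ℂ) = P k k := by
    rw [← hkk, ← Complex.ofReal_mul, Real.mul_self_sqrt hs0]
  have hsqne : ((√s : ℝ) : ℂ) ≠ 0 := by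
    intro h
    apply hk
    rw [← hsq, h, mul_zero]
  set v : Fin 3 → ℂ := fun i => P i k / ((√s : ℝ) : ℂ) with hv
  have hvv : ∀ i j, v i * star (v j) = P i k * P k j / P k k := by
    intro i j
    simp only [hv]
    rw [star_div₀]
    have e1 : star ((√s : ℝ) : ℂ) = ((√s : ℝ) : ℂ) := Complex.conj_ofReal _
    rw [e1, ← h1 j k, div_mul_div_comm, hsq]
  have hnorm : ∑ i, v i * star (v i) = 1 := by
    rw [Finset.sum_congr rfl fun i _ => hvv i i, ← Finset.sum_div]
    rw [Finset.sum_congr rfl fun i _ => mul_comm (P i k) (P k i), h2 k k, div_self hk]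
  refine ⟨v, hnorm, ?_⟩
  have hQ := prj_mem v hnorm
  obtain ⟨q1, q2, q3⟩ := hQ
  -- the difference
  have hherm : ∀ i j, (P - prj v) j i = star ((P - prj v) i j) := by
    intro i j
    simp only [Pi.sub_apply, star_sub]
    rw [h1 i j, q1 i j]
  have hsum := sum_sq_of_herm (P - prj v) hherm
  have hzero : ∑ i, ∑ j, (P - prj v) i j * (P - prj v) j i = 0 := by
    have e : ∀ i j, (P - prj v) i j * (P - prj v) j i =
        P i j * P j i - P i j * prj v j i - prj v i j * P j i + prj v i j * prj v j i := by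
      intro i j
      simp only [Pi.sub_apply]
      ring
    simp only [e, Finset.sum_add_distrib, Finset.sum_sub_distrib]
    have a1 : ∑ i, ∑ j, P i j * P j i = 1 := by
      rw [Finset.sum_congr rfl fun i _ => h2 i i, h3]
    have a2 : ∑ i, ∑ j, prj v i j * prj v j i = 1 := by
      rw [Finset.sum_congr rfl fun i _ => q2 i i, q3]
    have a3 : ∑ i, ∑ j, P i j * prj v j i = 1 := by
      have e3 : ∀ i, ∑ j, P i j * prj v j i = P k i * P i k / P k k := by
        intro i
        have : ∀ j, P i j * prj v j i = (P i j * P j k) * (P k i / P k k) := by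
          intro j
          have := hvv j i
          simp only [prj]
          rw [this]
          ring
        rw [Finset.sum_congr rfl fun j _ => this j, ← Finset.sum_mul, h2 i k]
        ring
      rw [Finset.sum_congr rfl fun i _ => e3 i, ← Finset.sum_div, h2 k k, div_self hk]
    have a4 : ∑ i, ∑ j, prj v i j * P j i = 1 := by
      rw [Finset.sum_comm]
      rw [← a3]
      refine Finset.sum_congr rfl fun i _ => Finset.sum_congr rfl fun j _ => ?_
      ring
    rw [a1, a2, a3, a4]
    norm_num
  rw [hzero] at hsum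
  have hsum' : (∑ i, ∑ j, ‖(P - prj v) i j‖ ^ 2 : ℝ) = 0 := by exact_mod_cast hsum
  funext i j
  have h0 : ∑ j, ‖(P - prj v) i j‖ ^ 2 = 0 := by
    rw [Finset.sum_eq_zero_iff_of_nonneg (fun i _ => by positivity)] at hsum'
    exact hsum' i (Finset.mem_univ i)
  rw [Finset.sum_eq_zero_iff_of_nonneg (fun i _ => by positivity)] at h0
  have h00 := h0 j (Finset.mem_univ j)
  have h000 : (P - prj v) i j = 0 := by
    have : ‖(P - prj v) i j‖ = 0 := by
      exact pow_eq_zero_iff (two_ne_zero) |>.mp h00
    exact norm_eq_zero.mp this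
  exact sub_eq_zero.mp h000

end H19

end Pool.Agent.W2helper44.CP
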