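import Pool.Agent.W2helper19.CP.Rk

/-!
# Project CP (MP_28b04d_gt), piece WIG1 (helper19): normalization in Wigner's theorem
-/

set_option autoImplicit false

open Set Filter Topology MeasureTheory
open scoped ContDiff

noncomputable section

namespace Pool.Agent.W2helper44.CP

namespace H19

/-- the Hermitian product -/
def ip (u v : Fin 3 → ℂ) : ℂ := ∑ i, u i * star (v i)

lemma ip_star (u v : Fin 3 → ℂ) : star (ip u v) = ip v u := by
  simp only [ip, star_sum, star_mul, star_star]

lemma ip_mul_ip (u v : Fin 3 → ℂ) : ip u v * ip v u = ((‖ip u v‖ ^ 2 : ℝ) : ℂ) := by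
  rw [← ip_star u v]
  have := Complex.mul_conj' (ip u v)
  simpa using this

lemma fro (u v : Fin 3 → ℂ) (hu : ip u u = 1) (hv : ip v v = 1) :
    ∑ i, ∑ j, ‖prj u i j - prj v i j‖ ^ 2 = 2 - 2 * ‖ip u v‖ ^ 2 := by
  have hherm : ∀ i j, (fun i j => prj u i j - prj v i j : Mat3) j i =
      star ((fun i j => prj u i j - prj v i j : Mat3) i j) := by
    intro i j
    simp only [prj, star_sub, star_mul, star_star]
  have h := sum_sq_of_herm (fun i j => prj u i j - prj v i j) hherm
  have e : ∑ i, ∑ j, (prj u i j - prj v i j) * (prj u j i - prj v j i) =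
      ip u u * ip u u - 2 * (ip u v * ip v u) + ip v v * ip v v := by
    simp only [prj, ip, Fin.sum_univ_three]
    ring
  rw [e, hu, hv, ip_mul_ip] at h
  have h' : ((∑ i, ∑ j, ‖prj u i j - prj v i j‖ ^ 2 : ℝ) : ℂ) =
      ((2 - 2 * ‖ip u v‖ ^ 2 : ℝ) : ℂ) := by
    rw [h]
    push_cast
    ring
  exact_mod_cast h'

/-- action of a matrix on vectors -/
def act (W : Matrix (Fin 3) (Fin 3) ℂ) (v : Fin 3 → ℂ) : Fin 3 → ℂ := fun i => ∑ k, W i k * v k

lemma conjBy_prj (W : Matrix (Fin 3) (Fin 3) ℂ) (v : Fin 3 → ℂ) :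
    conjBy W (prj v) = prj (act W v) := by
  funext i j
  simp only [conjBy, prj, act, Matrix.mul_apply, Matrix.of_apply, Matrix.conjTranspose_apply,
    Fin.sum_univ_three, star_add, star_mul]
  ring

lemma ip_act (W : Matrix (Fin 3) (Fin 3) ℂ) (hW : W.conjTranspose * W = 1) (u v : Fin 3 → ℂ) :
    ip (act W u) (act W v) = ip u v := by
  have hjk : ∀ j k, ∑ i, star (W i j) * W i k = if j = k then 1 else 0 := by
    intro j k
    have := congrFun (congrFun hW j) k
    rw [Matrix.mul_apply] at this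
    simpa [Matrix.one_apply, Matrix.conjTranspose_apply] using this
  have e : ip (act W u) (act W v) = ∑ j, ∑ k, (∑ i, star (W i j) * W i k) * (u k * star (v j)) := by
    simp only [ip, act, Fin.sum_univ_three, star_add, star_mul]
    ring
  rw [e]
  simp only [hjk, Fin.sum_univ_three, ip]
  simp

lemma conjBy_conjBy (U W : Matrix (Fin 3) (Fin 3) ℂ) (P : Mat3) :
    conjBy U (conjBy W P) = conjBy (U * W) P := by
  have h : ∀ (X : Matrix (Fin 3) (Fin 3) ℂ) (Q : Mat3),
      Matrix.of (conjBy X Q) = X * Matrix.of Q * X.conjTranspose := fun X Q => rfl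
  have : Matrix.of (conjBy U (conjBy W P)) = Matrix.of (conjBy (U * W) P) := by
    rw [h, h, h, Matrix.conjTranspose_mul]
    simp only [Matrix.mul_assoc]
  exact this

lemma conjBy_one (P : Mat3) : conjBy 1 P = P := by
  have : Matrix.of (conjBy 1 P) = Matrix.of P := by
    change 1 * Matrix.of P * (1 : Matrix (Fin 3) (Fin 3) ℂ).conjTranspose = Matrix.of P
    simp
  exact this

lemma prj_smul (c : ℂ) (v : Fin 3 → ℂ) (hc : c * star c = 1) :
    prj (fun i => c * v i) = prj v := by
  funext i j
  simp only [prj, star_mul]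
  calc c * v i * (star (v j) * star c) = (c * star c) * (v i * star (v j)) := by ring
    _ = v i * star (v j) := by rw [hc, one_mul]

lemma col_unit (w : Fin 3 → Fin 3 → ℂ) (h : ∀ j k, ip (w k) (w j) = if j = k then 1 else 0) :
    (Matrix.of fun i k => w k i).conjTranspose * (Matrix.of fun i k => w k i) = 1 := by
  ext j k
  rw [Matrix.mul_apply, Matrix.one_apply, ← h j k, ip]
  refine Finset.sum_congr rfl fun i _ => ?_
  rw [Matrix.conjTranspose_apply, Matrix.of_apply, Matrix.of_apply, mul_comm]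

lemma ip_smul_smul (a b : ℂ) (u v : Fin 3 → ℂ) :
    ip (fun i => a * u i) (fun i => b * v i) = a * star b * ip u v := by
  simp only [ip, star_mul, Fin.sum_univ_three]
  ring

end H19

open H19

theorem p_WIG1 : P_WIG1 := by
  intro hW2 g hg hiso
  have hs3 : ((√3 : ℝ) : ℂ) * ((√3 : ℝ) : ℂ) = 3 := by
    rw [← Complex.ofReal_mul, Real.mul_self_sqrt (by norm_num)]
    norm_num
  have hs3ne : ((√3 : ℝ) : ℂ) ≠ 0 := by
    intro h
    rw [h] at hs3
    norm_num at hs3
  have hs3star : star ((√3 : ℝ) : ℂ) = ((√3 : ℝ) : ℂ) := Complex.conj_ofReal _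
  -- the coordinate vectors
  let e : Fin 3 → Fin 3 → ℂ := fun k i => if i = k then 1 else 0
  have he : ∀ k, Ecoord k = prj (e k) := by
    intro k
    funext i j
    simp only [Ecoord, prj, e]
    by_cases hi : i = k <;> by_cases hj : j = k <;> simp [hi, hj]
  let q : Fin 3 → ℂ := fun _ => (((√3 : ℝ) : ℂ))⁻¹
  have hq : Jproj = prj q := by
    funext i j
    simp only [Jproj, prj, q, star_inv₀, hs3star]
    rw [← mul_inv, hs3]
    norm_num
  have hee : ∀ k, ip (e k) (e k) = 1 := by
    intro k
    simp only [ip, e]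
    fin_cases k <;> simp [Fin.sum_univ_three]
  have heo : ∀ j k, j ≠ k → ip (e j) (e k) = 0 := by
    intro j k hjk
    simp only [ip, e]
    refine Finset.sum_eq_zero fun i _ => ?_
    by_cases hi : i = j
    · subst hi
      simp [hjk]
    · simp [hi]
  have hqq : ip q q = 1 := by
    simp only [ip, q, star_inv₀, hs3star, Fin.sum_univ_three]
    rw [← mul_inv, hs3]
    norm_num
  have hqe : ∀ k, ‖ip q (e k)‖ ^ 2 = 1 / 3 := by
    intro k
    have h1 : ip q (e k) = (((√3 : ℝ) : ℂ))⁻¹ := by
      simp only [ip, q, e]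
      fin_cases k <;> simp [Fin.sum_univ_three]
    rw [h1, norm_inv, Complex.norm_real, Real.norm_eq_abs, abs_of_nonneg (Real.sqrt_nonneg 3),
      inv_pow, Real.sq_sqrt (by norm_num)]
    norm_num
  have hEm : ∀ k, Ecoord k ∈ CP2 := fun k => by
    rw [he k]
    exact prj_mem _ (hee k)
  have hJm : Jproj ∈ CP2 := by
    rw [hq]
    exact prj_mem _ hqq
  -- the vectors of the images
  choose u hu1 hu using fun k => exists_prj (g (Ecoord k)) (hg (hEm k))
  obtain ⟨z, hz1, hz⟩ := exists_prj (g Jproj) (hg hJm)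
  have hu1' : ∀ k, ip (u k) (u k) = 1 := hu1
  have hz1' : ip z z = 1 := hz1
  have huo : ∀ j k, j ≠ k → ip (u j) (u k) = 0 := by
    intro j k hjk
    have h1 := hiso _ (hEm j) _ (hEm k)
    rw [hu j, hu k, he j, he k, fro _ _ (hu1' j) (hu1' k), fro _ _ (hee j) (hee k), heo j k hjk] at h1
    have h2 : ‖ip (u j) (u k)‖ ^ 2 = 0 := by
      have : ‖(0 : ℂ)‖ = 0 := norm_zero
      rw [this] at h1
      linarith
    exact norm_eq_zero.mp (pow_eq_zero_iff two_ne_zero |>.mp h2)
  have hzc : ∀ k, ‖ip z (u k)‖ ^ 2 = 1 / 3 := by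
    intro k
    have h1 := hiso _ hJm _ (hEm k)
    rw [hz, hu k, he k, hq, fro _ _ hz1' (hu1' k), fro _ _ hqq (hee k), hqe k] at h1
    linarith
  -- the unitary matrix
  let U₁ : Matrix (Fin 3) (Fin 3) ℂ := Matrix.of fun i k => u k i
  have hU1 : U₁.conjTranspose * U₁ = 1 := by
    refine col_unit u fun j k => ?_
    by_cases hjk : j = k
    · subst hjk
      rw [if_pos rfl]
      exact hu1' j
    · rw [if_neg hjk]
      exact huo k j (Ne.symm hjk)
  have hU2 : U₁ * U₁.conjTranspose = 1 := mul_eq_one_comm.mp hU1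
  let c : Fin 3 → ℂ := fun k => ((√3 : ℝ) : ℂ) * ip z (u k)
  have hck : ∀ k, c k * star (c k) = 1 := by
    intro k
    simp only [c]
    rw [star_mul, hs3star]
    have h1 : ip z (u k) * star (ip z (u k)) = ((1 / 3 : ℝ) : ℂ) := by
      rw [ip_star, ip_mul_ip, hzc k]
    calc ((√3 : ℝ) : ℂ) * ip z (u k) * (star (ip z (u k)) * ((√3 : ℝ) : ℂ))
        = (((√3 : ℝ) : ℂ) * ((√3 : ℝ) : ℂ)) * (ip z (u k) * star (ip z (u k))) := by ring
      _ = 1 := by
        rw [hs3, h1]
        push_cast
        norm_num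
  let V : Matrix (Fin 3) (Fin 3) ℂ := Matrix.of fun i k => (fun l : Fin 3 => c k * u k l) i
  have hV1 : V.conjTranspose * V = 1 := by
    refine col_unit (fun k l => c k * u k l) fun j k => ?_
    rw [ip_smul_smul]
    by_cases hjk : j = k
    · subst hjk
      rw [if_pos rfl, hu1', mul_one]
      exact hck j
    · rw [if_neg hjk, huo k j (Ne.symm hjk), mul_zero]
  have hV2 : V * V.conjTranspose = 1 := mul_eq_one_comm.mp hV1
  have hgE : ∀ k, g (Ecoord k) = conjBy V (Ecoord k) := by
    intro k
    rw [hu k, he k, conjBy_prj, ← prj_smul _ (u k) (hck k)]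
    congr 1
    funext i
    simp only [act, V, e, Matrix.of_apply]
    simp
  have hgJ : g Jproj = conjBy V Jproj := by
    rw [hz, hq, conjBy_prj]
    congr 1
    have hzz : ∀ i, z i = ∑ k, ip z (u k) * u k i := by
      intro i
      have h1 : ∀ j, ∑ k, u k i * star (u k j) = if i = j then 1 else 0 := by
        intro j
        have := congrFun (congrFun hU2 i) j
        rw [Matrix.mul_apply, Matrix.one_apply] at this
        rw [← this]
        refine Finset.sum_congr rfl fun k _ => ?_
        rw [Matrix.conjTranspose_apply]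
        rfl
      have h2 : ∑ k, ip z (u k) * u k i = ∑ j, z j * ∑ k, u k i * star (u k j) := by
        simp only [ip, Fin.sum_univ_three]
        ring
      rw [h2]
      simp only [h1]
      simp
    funext i
    rw [hzz i]
    simp only [act, V, q, c, Matrix.of_apply]
    refine Finset.sum_congr rfl fun k _ => ?_
    field_simp
  -- the normalized map
  have hVV : ∀ P : Mat3, conjBy V (conjBy V.conjTranspose P) = P := by
    intro P
    rw [conjBy_conjBy, hV2, conjBy_one]
  have hVV' : ∀ P : Mat3, conjBy V.conjTranspose (conjBy V P) = P := by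
    intro P
    rw [conjBy_conjBy, hV1, conjBy_one]
  have hVc : V.conjTranspose.conjTranspose * V.conjTranspose = 1 := by
    rw [Matrix.conjTranspose_conjTranspose]
    exact hV2
  have hmem : ∀ P ∈ CP2, conjBy V.conjTranspose P ∈ CP2 := by
    intro P hP
    obtain ⟨v, hv, rfl⟩ := exists_prj P hP
    rw [conjBy_prj]
    refine prj_mem _ ?_
    have := ip_act V.conjTranspose hVc v v
    rw [show ip v v = 1 from hv] at this
    exact this
  have hdist : ∀ P ∈ CP2, ∀ Q ∈ CP2,
      ∑ i, ∑ j, ‖conjBy V.conjTranspose P i j - conjBy V.conjTranspose Q i j‖ ^ 2 =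
        ∑ i, ∑ j, ‖P i j - Q i j‖ ^ 2 := by
    intro P hP Q hQ
    obtain ⟨v, hv, rfl⟩ := exists_prj P hP
    obtain ⟨w, hw, rfl⟩ := exists_prj Q hQ
    have hv' : ip v v = 1 := hv
    have hw' : ip w w = 1 := hw
    rw [conjBy_prj, conjBy_prj, fro _ _ (by rw [ip_act _ hVc, hv']) (by rw [ip_act _ hVc, hw']),
      fro _ _ hv' hw', ip_act _ hVc]
  have key := hW2 (fun P => conjBy V.conjTranspose (g P)) (fun P hP => hmem _ (hg hP))
    (fun P hP Q hQ => by
      rw [hdist _ (hg hP) _ (hg hQ), hiso P hP Q hQ])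
    (fun k => by
      change conjBy V.conjTranspose (g (Ecoord k)) = Ecoord k
      rw [hgE k, hVV'])
    (by
      change conjBy V.conjTranspose (g Jproj) = Jproj
      rw [hgJ, hVV'])
  refine ⟨V, hV2, hV1, ?_⟩
  rcases key with key | key
  · left
    intro P hP
    have := key P hP
    rw [← hVV (g P)]
    exact congrArg (conjBy V) this
  · right
    intro P hP
    have := key P hP
    rw [← hVV (g P)]
    exact congrArg (conjBy V) this

end Pool.Agent.W2helper44.CP
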